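import Pool.Agent.H317.GR.StmD
import Pool.Graph.R_pool_sql_team_seeded_ab47071d.TH567.PR.Rep

/-!
# SU2: representations of degree `n` of `SL_n(ℤ)` have rank one elementary matrices
(project GR of helper317)
-/

set_option autoImplicit false

namespace Pool.Agent.H384.GR

open Matrix Module Pool.Agent.H317.GR
open Pool.Agent.TH567.PR (tv_comm tv_mul_apply mul_tv_apply tv_pow exists_w one_ap)

section grp

variable {n : ℕ}

lemma tv_commute {i j a b : Fin n} (hij : i ≠ j) (hab : a ≠ b) (hja : j ≠ a) (hib : i ≠ b)
    (s t : ℤ) :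
    SpecialLinearGroup.transvection hij s * SpecialLinearGroup.transvection hab t =
      SpecialLinearGroup.transvection hab t * SpecialLinearGroup.transvection hij s := by
  apply Subtype.ext
  change ((1 : Matrix (Fin n) (Fin n) ℤ) + single i j s) * (1 + single a b t) =
    (1 + single a b t) * (1 + single i j s)
  have h1 : single i j s * single a b t = (0 : Matrix (Fin n) (Fin n) ℤ) :=
    Matrix.single_mul_single_of_ne _ _ _ _ hja _
  have h2 : single a b t * single i j s = (0 : Matrix (Fin n) (Fin n) ℤ) :=
    Matrix.single_mul_single_of_ne _ _ _ _ hib.symm _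
  rw [mul_add, add_mul, add_mul, mul_add, add_mul, add_mul, h1, h2]
  simp only [mul_one, one_mul, add_zero]
  abel

lemma tv_ap {i j : Fin n} (h : i ≠ j) (c : ℤ) (x y : Fin n) :
    (SpecialLinearGroup.transvection h c : SZ n) x y =
      if x = i then (if x = y then 1 else 0) + c * (if j = y then 1 else 0)
      else if x = y then 1 else 0 := by
  have h1 := tv_mul_apply h c 1 x y
  rw [mul_one] at h1
  rw [h1, one_ap, one_ap]

lemma exists_rot (p q : Fin n) (hpq : p ≠ q) : ∃ w : SZ n,
    (∀ (a : Fin n) (hp : p ≠ a) (hq : q ≠ a) (c : ℤ),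
      w * SpecialLinearGroup.transvection hp c = SpecialLinearGroup.transvection hq (-c) * w) ∧
    (∀ c : ℤ, w * SpecialLinearGroup.transvection hpq c =
      SpecialLinearGroup.transvection hpq.symm (-c) * w) := by
  obtain ⟨w, -, -, hw⟩ := exists_w p q hpq
  have hw1 : ∀ x y, w x y = if x = p then (if q = y then 1 else 0)
      else if x = q then -(if p = y then 1 else 0) else if x = y then 1 else 0 := by
    intro x y
    have h1 := hw 1 x y
    rw [mul_one, one_ap, one_ap, one_ap] at h1
    exact h1
  refine ⟨w, ?_, ?_⟩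
  · intro a hp hq c
    apply Subtype.ext
    ext x y
    change (w * SpecialLinearGroup.transvection hp c) x y =
      (SpecialLinearGroup.transvection hq (-c) * w) x y
    rw [hw, tv_mul_apply]
    simp only [hw1, tv_ap]
    by_cases hx : x = p
    · subst hx
      simp [hpq, hpq.symm]
    · by_cases hx2 : x = q
      · subst hx2
        simp only [hx, if_false, if_true, hp.symm, hq.symm]
        ring
      · simp [hx, hx2]
  · intro c
    apply Subtype.ext
    ext x y
    change (w * SpecialLinearGroup.transvection hpq c) x y =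
      (SpecialLinearGroup.transvection hpq.symm (-c) * w) x y
    rw [hw, tv_mul_apply]
    simp only [hw1, tv_ap]
    by_cases hx : x = p
    · subst hx
      simp [hpq, hpq.symm]
    · by_cases hx2 : x = q
      · subst hx2
        simp only [hx, if_false, if_true]
        ring
      · simp [hx, hx2]

end grp

section lin

variable {K ι V : Type} [Field K] [AddCommGroup V] [Module K V] [DecidableEq ι]

lemma mem_FixW (J : Finset ι) (i : ι) (T : ι → ι → Module.End K V) (v : V) :
    v ∈ FixW J i T ↔ ∀ a ∈ J.erase i, T i a v = v := by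
  unfold FixW
  simp only [Submodule.mem_iInf, LinearMap.mem_ker, LinearMap.sub_apply, Module.End.one_apply,
    sub_eq_zero]

lemma mem_FixW2 (J : Finset ι) (i : ι) (T : ι → ι → Module.End K V) (v : V) :
    v ∈ FixW2 J i T ↔ ∀ a ∈ J.erase i, T i a v - v ∈ FixW J i T := by
  unfold FixW2
  simp only [Submodule.mem_iInf, Submodule.mem_comap, LinearMap.sub_apply, Module.End.one_apply]

end lin

/-- the operator of a group element -/
noncomputable def op {n : ℕ} {K : Type} [Field K] (τ : SZ n →* GL (Fin n) K) (g : SZ n) :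
    Module.End K (Fin n → K) := Matrix.toLinAlgEquiv' (τ g).val

lemma op_mul {n : ℕ} {K : Type} [Field K] (τ : SZ n →* GL (Fin n) K) (g h : SZ n) :
    op τ (g * h) = op τ g * op τ h := by
  unfold op
  rw [map_mul, Units.val_mul, map_mul]

lemma op_one {n : ℕ} {K : Type} [Field K] (τ : SZ n →* GL (Fin n) K) : op τ 1 = 1 := by
  unfold op
  rw [map_one, Units.val_one, map_one]

lemma op_pow {n : ℕ} {K : Type} [Field K] (τ : SZ n →* GL (Fin n) K) (g : SZ n) (k : ℕ) :
    op τ (g ^ k) = op τ g ^ k := by
  unfold op
  rw [map_pow, Units.val_pow_eq_pow_val, map_pow]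

lemma op_inj {n : ℕ} {K : Type} [Field K] (τ : SZ n →* GL (Fin n) K) (g : SZ n) :
    Function.Injective (op τ g) := by
  have h : ∀ v, op τ g⁻¹ (op τ g v) = v := by
    intro v
    have h1 : op τ g⁻¹ * op τ g = 1 := by rw [← op_mul, inv_mul_cancel, op_one]
    have h2 := congrArg (fun f => f v) h1
    exact h2
  exact Function.LeftInverse.injective h

lemma op_entry {n : ℕ} {K : Type} [Field K] (τ : SZ n →* GL (Fin n) K) (g : SZ n) (a b : Fin n) :
    op τ g (Pi.single b 1) a = (τ g).val a b := by
  unfold op
  rw [Matrix.toLinAlgEquiv'_apply]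
  simp [Matrix.mulVec_single]

/-- the system -/
noncomputable def TT {n : ℕ} {K : Type} [Field K] (τ : SZ n →* GL (Fin n) K) (k : ℕ)
    (i j : Fin n) : Module.End K (Fin n → K) :=
  if h : i ≠ j then op τ (SpecialLinearGroup.transvection h (k : ℤ)) else 1

lemma TT_of {n : ℕ} {K : Type} [Field K] (τ : SZ n →* GL (Fin n) K) (k : ℕ)
    {i j : Fin n} (h : i ≠ j) :
    TT τ k i j = op τ (SpecialLinearGroup.transvection h (k : ℤ)) := by
  unfold TT
  rw [dif_pos h]

lemma stSys {n : ℕ} {K : Type} [Field K] (τ : SZ n →* GL (Fin n) K) (k : ℕ)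
    (hnil : ∀ (i j : Fin n) (h : i ≠ j),
      IsNilpotent ((τ (SpecialLinearGroup.transvection h (k : ℤ))).val - 1)) :
    StSys (Finset.univ : Finset (Fin n)) k (TT τ k) := by
  refine ⟨?_, ?_, ?_⟩
  · intro i _ j _ hij
    rw [TT_of τ k hij]
    have h1 := (hnil i j hij).map (Matrix.toLinAlgEquiv' (R := K) (n := Fin n))
    rw [map_sub, map_one] at h1
    exact h1
  · intro i _ j _ a _ b _ hij hab hja hib
    rw [TT_of τ k hij, TT_of τ k hab, ← op_mul, ← op_mul, tv_commute hij hab hja hib]
  · intro i _ j _ l _ hij hjl hil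
    rw [TT_of τ k hij, TT_of τ k hjl, TT_of τ k hil, ← op_mul, ← op_mul, ← op_pow, ← op_mul,
      tv_comm hij hjl hil, tv_pow]

/-- all the fixed spaces have the same dimension -/
lemma dim_le {n : ℕ} {K : Type} [Field K] (τ : SZ n →* GL (Fin n) K) (k : ℕ) (p q : Fin n)
    (hpq : p ≠ q) :
    finrank K (FixW Finset.univ p (TT τ k)) ≤ finrank K (FixW Finset.univ q (TT τ k)) := by
  obtain ⟨w, hw1, hw2⟩ := exists_rot p q hpq
  have hfix : ∀ (a : Fin n) (hq : q ≠ a) (y : Fin n → K),
      op τ (SpecialLinearGroup.transvection hq (-(k : ℤ))) y = y →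
      op τ (SpecialLinearGroup.transvection hq (k : ℤ)) y = y := by
    intro a hq y hy
    have h1 : op τ (SpecialLinearGroup.transvection hq (k : ℤ)) *
        op τ (SpecialLinearGroup.transvection hq (-(k : ℤ))) = 1 := by
      rw [← op_mul, ← SpecialLinearGroup.transvection_add, add_neg_cancel,
        SpecialLinearGroup.transvection_coeff_zero, op_one]
    have h2 := congrArg (fun f => f y) h1
    simp only [Module.End.mul_apply, Module.End.one_apply] at h2
    rw [hy] at h2
    exact h2
  have hmap : ∀ v ∈ FixW Finset.univ p (TT τ k), op τ w v ∈ FixW Finset.univ q (TT τ k) := by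
    intro v hv
    rw [mem_FixW] at hv ⊢
    intro a ha
    have hqa : q ≠ a := (Finset.ne_of_mem_erase ha).symm
    rw [TT_of τ k hqa]
    apply hfix a hqa
    by_cases hap : a = p
    · subst hap
      have h1 := congrArg (fun g => op τ g v) (hw2 (k : ℤ))
      simp only [op_mul, Module.End.mul_apply] at h1
      have h2 := hv q (Finset.mem_erase.2 ⟨hpq.symm, Finset.mem_univ _⟩)
      rw [TT_of τ k hpq] at h2
      rw [h2] at h1
      exact h1.symm
    · have hpa : p ≠ a := fun h => hap h.symm
      have h1 := congrArg (fun g => op τ g v) (hw1 a hpa hqa (k : ℤ))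
      simp only [op_mul, Module.End.mul_apply] at h1
      have h2 := hv a (Finset.mem_erase.2 ⟨hap, Finset.mem_univ _⟩)
      rw [TT_of τ k hpa] at h2
      rw [h2] at h1
      exact h1.symm
  refine LinearMap.finrank_le_finrank_of_injective (f := (op τ w).restrict hmap) ?_
  intro x y hxy
  apply Subtype.ext
  apply op_inj τ w
  exact congrArg Subtype.val hxy

theorem su2 : S_STP → S_STR → S_SU2 := by
  intro hstp hstr n hn K _ _ τ k hk hnil hne
  have hSt := stSys τ k hnil
  have hcard : (Finset.univ : Finset (Fin n)).card = n := by simp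
  have hdimV : finrank K (Fin n → K) = n := by simp
  have hval : ∀ (i j : Fin n) (h : i ≠ j),
      (τ (SpecialLinearGroup.transvection h (k : ℤ))).val ≠ 1 := by
    intro i j h hcon
    exact hne i j h (Units.ext hcon)
  have hTne : ∀ (i j : Fin n), i ≠ j → TT τ k i j ≠ 1 := by
    intro i j h hcon
    rw [TT_of τ k h] at hcon
    apply hval i j h
    apply (Matrix.toLinAlgEquiv' (R := K) (n := Fin n)).injective
    rw [map_one]
    exact hcon
  -- a second index
  have hsec : ∀ i : Fin n, ∃ a : Fin n, a ≠ i := by
    intro i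
    have : Nontrivial (Fin n) := Fin.nontrivial_iff_two_le.2 (by omega)
    exact exists_ne i
  have key : ∀ i : Fin n,
      1 ≤ finrank K (FixW Finset.univ i (TT τ k)) ∧
      finrank K (FixW Finset.univ i (TT τ k)) < finrank K (FixW2 Finset.univ i (TT τ k)) ∧
      (n - 1 ≤ finrank K (FixW Finset.univ i (TT τ k)) ∨
        finrank K (FixW Finset.univ i (TT τ k)) + (n - 1) ≤
          finrank K (FixW2 Finset.univ i (TT τ k))) := by
    intro i
    have hce : ((Finset.univ : Finset (Fin n)).erase i).card = n - 1 := by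
      rw [Finset.card_erase_of_mem (Finset.mem_univ i), hcard]
    obtain ⟨a, ha⟩ := hsec i
    have h1 := hstp K (Fin n → K) (Fin n) Finset.univ k (TT τ k) hk (by rw [hcard]; exact hn) hSt i
      (Finset.mem_univ i) ⟨a, Finset.mem_univ a, ha, hTne i a ha.symm⟩ (by
        intro U _ _ _ S hS hU
        exact hstr K U (Fin n) (Finset.univ.erase i) k S hk (by rw [hce]; omega) hS hU)
    rw [hce] at h1
    exact h1.2
  have hle2 : ∀ i : Fin n, finrank K (FixW2 Finset.univ i (TT τ k)) ≤ n := by
    intro i
    have := Submodule.finrank_le (FixW2 Finset.univ i (TT τ k))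
    rw [hdimV] at this
    exact this
  have hdim : ∀ i j : Fin n, finrank K (FixW Finset.univ i (TT τ k)) =
      finrank K (FixW Finset.univ j (TT τ k)) := by
    intro i j
    by_cases hij : i = j
    · rw [hij]
    · exact le_antisymm (dim_le τ k i j hij) (dim_le τ k j i (Ne.symm hij))
  -- from the operators to the matrices
  have hmat : ∀ (i j : Fin n) (h : i ≠ j) (v φ : Fin n → K),
      (∀ b : Fin n, TT τ k i j (Pi.single b 1) - Pi.single b 1 = φ b • v) →
      v ≠ 0 ∧ φ ≠ 0 ∧
        (τ (SpecialLinearGroup.transvection h (k : ℤ))).val = 1 + vecMulVec v φ := by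
    intro i j h v φ hb
    have h1 : (τ (SpecialLinearGroup.transvection h (k : ℤ))).val = 1 + vecMulVec v φ := by
      ext a b
      have h2 := congrFun (hb b) a
      rw [Pi.sub_apply, TT_of τ k h, op_entry, Pi.smul_apply, smul_eq_mul] at h2
      rw [Matrix.add_apply, Matrix.vecMulVec_apply, Matrix.one_apply]
      have h3 : (Pi.single b (1 : K) : Fin n → K) a = if a = b then 1 else 0 := by
        rw [Pi.single_apply]
      rw [h3] at h2
      linear_combination h2
    refine ⟨?_, ?_, h1⟩
    · rintro rfl
      apply hval i j h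
      rw [h1]
      simp
    · rintro rfl
      apply hval i j h
      rw [h1]
      simp
  have : NeZero n := ⟨by omega⟩
  by_cases hd1 : n - 1 ≤ finrank K (FixW Finset.univ (0 : Fin n) (TT τ k))
  · -- the fixed spaces are hyperplanes
    right
    have hd : ∀ i : Fin n, finrank K (FixW Finset.univ i (TT τ k)) = n - 1 := by
      intro i
      have h1 := key i
      have h2 := hle2 i
      have h3 := hdim i 0
      omega
    have hex : ∀ i : Fin n, ∃ (f : (Fin n → K) →ₗ[K] K) (v0 : Fin n → K), f v0 = 1 ∧
        ∀ x, f x = 0 → x ∈ FixW Finset.univ i (TT τ k) := by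
      intro i
      have hlt : FixW Finset.univ i (TT τ k) < ⊤ := by
        rw [lt_top_iff_ne_top]
        intro hcon
        have h1 := hd i
        rw [hcon, finrank_top, hdimV] at h1
        omega
      obtain ⟨f, hf, hle⟩ := Submodule.exists_le_ker_of_lt_top _ hlt
      have hsurj : Function.Surjective f := LinearMap.surjective hf
      obtain ⟨v0, hv0⟩ := hsurj 1
      refine ⟨f, v0, hv0, fun x hx => ?_⟩
      have h1 := LinearMap.finrank_range_add_finrank_ker f
      rw [LinearMap.range_eq_top.2 hsurj, finrank_top, finrank_self, hdimV] at h1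
      have h2 : FixW Finset.univ i (TT τ k) = LinearMap.ker f := by
        apply Submodule.eq_of_le_of_finrank_eq hle
        rw [hd i]
        omega
      rw [h2, LinearMap.mem_ker]
      exact hx
    choose f v0 hv0 hf using hex
    refine ⟨fun i j => TT τ k i j (v0 i) - v0 i, fun i b => f i (Pi.single b 1), ?_⟩
    intro i j h
    apply hmat i j h
    intro b
    have h1 : Pi.single b (1 : K) - f i (Pi.single b 1) • v0 i ∈ FixW Finset.univ i (TT τ k) := by
      apply hf
      rw [map_sub, map_smul, hv0, smul_eq_mul, mul_one, sub_self]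
    rw [mem_FixW] at h1
    have h2 := h1 j (Finset.mem_erase.2 ⟨h.symm, Finset.mem_univ _⟩)
    rw [map_sub, map_smul] at h2
    rw [smul_sub]
    have h3 : TT τ k i j (Pi.single b 1) = Pi.single b 1 - f i (Pi.single b 1) • v0 i +
        f i (Pi.single b 1) • TT τ k i j (v0 i) := by
      rw [← h2]
      abel
    rw [h3]
    abel
  · -- the fixed spaces are lines
    left
    have hd : ∀ i : Fin n, finrank K (FixW Finset.univ i (TT τ k)) = 1 ∧
        FixW2 Finset.univ i (TT τ k) = ⊤ := by
      intro i
      have h1 := key i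
      have h2 := hle2 i
      have h3 := hdim i 0
      refine ⟨by omega, ?_⟩
      apply Submodule.eq_top_of_finrank_eq
      rw [hdimV]
      omega
    have hex : ∀ i : Fin n, ∃ v : Fin n → K, ∀ x ∈ FixW Finset.univ i (TT τ k),
        ∃ c : K, x = c • v := by
      intro i
      obtain ⟨v, -, hv⟩ := finrank_eq_one_iff'.1 (hd i).1
      refine ⟨v.val, fun x hx => ?_⟩
      obtain ⟨c, hc⟩ := hv ⟨x, hx⟩
      exact ⟨c, (congrArg Subtype.val hc).symm⟩
    choose v hv using hex
    have hphi : ∀ i j b : Fin n, ∃ c : K, i ≠ j →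
        TT τ k i j (Pi.single b 1) - Pi.single b 1 = c • v i := by
      intro i j b
      by_cases h : i ≠ j
      · have h1 : (Pi.single b (1 : K) : Fin n → K) ∈ FixW2 Finset.univ i (TT τ k) := by
          rw [(hd i).2]
          exact Submodule.mem_top
        rw [mem_FixW2] at h1
        obtain ⟨c, hc⟩ := hv i _ (h1 j (Finset.mem_erase.2 ⟨h.symm, Finset.mem_univ _⟩))
        exact ⟨c, fun _ => hc⟩
      · exact ⟨0, fun h' => absurd h' h⟩
    choose φ hφ using hphi
    refine ⟨v, φ, ?_⟩
    intro i j h
    exact hmat i j h (v i) (φ i j) (fun b => hφ i j b h)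

end Pool.Agent.H384.GR
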